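import Pool.Agent.Helper26.HN.Stmts

/-!
# The attraction near the nuclei (row ATZ)
-/

set_option autoImplicit false

namespace Pool.Agent.Helper81.HN

open MeasureTheory Filter Pool.Agent.Helper95 Pool.Agent.Helper95.PW Pool.Agent.Helper95.LN
open Pool.Agent.Helper26.HN

theorem atz_nr (y : R3) : nr y = ‖(WithLp.toLp 2 y : EuclideanSpace ℝ (Fin 3))‖ := by
  rw [EuclideanSpace.norm_eq, nr, Fin.sum_univ_three]
  simp [Real.norm_eq_abs, sq_abs]

theorem atz_tri (u v w : R3) : nr (u - w) ≤ nr (v - u) + nr (v - w) := by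
  have e : u - w = (v - w) - (v - u) := by abel
  rw [e, atz_nr, atz_nr, atz_nr, WithLp.toLp_sub, add_comm]
  exact norm_sub_le _ _

theorem atz_pt {M : ℕ} (X : Fin M → R3) {b d : ℝ} (hb : 0 < b) (hbd : b ≤ d) (hX : Sep X d)
    (y : R3) : near1 X d y ≤ near1 X b y + 1 / b := by
  have t0 : ∀ (r : ℝ) (j : Fin M), 0 ≤ (if nr (y - X j) < r then 1 / nr (y - X j) else 0) := by
    intro r j
    split_ifs
    · exact div_nonneg zero_le_one (Real.sqrt_nonneg _)
    · exact le_rfl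
  have hb1 : 0 ≤ 1 / b := by positivity
  have hs : 0 ≤ near1 X b y := Finset.sum_nonneg fun j _ => t0 b j
  by_cases h : ∃ j0, nr (y - X j0) < d
  · obtain ⟨j0, h0⟩ := h
    have e1 : near1 X d y = if nr (y - X j0) < d then 1 / nr (y - X j0) else 0 := by
      unfold near1
      refine Finset.sum_eq_single j0 (fun j _ hj => ?_) (fun hh => absurd (Finset.mem_univ _) hh)
      rw [if_neg]
      intro h1
      have h2 := hX j0 j (Ne.symm hj)
      have h3 := atz_tri (X j0) y (X j)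
      linarith
    have e2 : (if nr (y - X j0) < b then 1 / nr (y - X j0) else 0) ≤ near1 X b y := by
      unfold near1
      exact Finset.single_le_sum (f := fun j => if nr (y - X j) < b then 1 / nr (y - X j) else 0)
        (fun j _ => t0 b j) (Finset.mem_univ j0)
    rw [e1, if_pos h0]
    by_cases h4 : nr (y - X j0) < b
    · rw [if_pos h4] at e2
      linarith
    · push Not at h4
      have h5 : 1 / nr (y - X j0) ≤ 1 / b := one_div_le_one_div_of_le hb h4
      linarith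
  · push Not at h
    have e1 : near1 X d y = 0 := by
      unfold near1
      exact Finset.sum_eq_zero fun j _ => if_neg (not_lt.2 (h j))
    rw [e1]
    linarith

theorem atz_one (hI : ST_INZ) {n M : ℕ} (X : Fin M → R3) {b d : ℝ} (hb : 0 < b) (hbd : b ≤ d)
    (hX : Sep X d) {u : Wf n} (hu : Sm u) :
    one (near1 X d) u ≤ one (near1 X b) u + n * (1 / b) * PW.sq u := by
  have i1 : ∀ s, Integrable (fun x : Cf n => u s x ^ 2) := fun s =>
    ((hu s).1.continuous.memLp_of_hasCompactSupport (hu s).2 (p := 2)).integrable_sq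
  unfold one PW.sq
  rw [Finset.mul_sum, ← Finset.sum_add_distrib]
  refine Finset.sum_le_sum fun s _ => ?_
  have i2 := (hI n M X d u hu).1 s
  have i3 := (hI n M X b u hu).1 s
  rw [← integral_const_mul, ← integral_add i3 ((i1 s).const_mul _)]
  refine integral_mono i2 (i3.add ((i1 s).const_mul _)) fun x => ?_
  have h1 : ∑ k, near1 X d (x k) ≤ (∑ k, near1 X b (x k)) + n * (1 / b) := by
    calc ∑ k, near1 X d (x k) ≤ ∑ k, (near1 X b (x k) + 1 / b) :=
          Finset.sum_le_sum fun k _ => atz_pt X hb hbd hX (x k)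
      _ = (∑ k, near1 X b (x k)) + n * (1 / b) := by
          rw [Finset.sum_add_distrib]
          simp
  have h2 := mul_le_mul_of_nonneg_right h1 (sq_nonneg (u s x))
  simp only [Pi.add_apply]
  linarith

theorem ATZ (h1 : ST_NEZ) (hI : ST_INZ) : ST_ATZ := by
  intro d B hd hB
  obtain ⟨C, hC, hN⟩ := h1
  obtain ⟨C', hC', hN'⟩ := hN d 1 hd one_pos
  refine ⟨B + C + C' + 2 * (1 / d + 1), by positivity, ?_⟩
  intro n M X z u hz hn hX hu hA hsq hkin
  have z0 : 0 < z := by linarith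
  have zb : 0 < z ^ (-(1 / 3) : ℝ) := Real.rpow_pos_of_pos z0 _
  obtain ⟨b, hbdef⟩ : ∃ b : ℝ, b = min d (z ^ (-(1 / 3) : ℝ)) := ⟨_, rfl⟩
  have hb : 0 < b := by rw [hbdef]; exact lt_min hd zb
  have hbd : b ≤ d := by rw [hbdef]; exact min_le_left _ _
  have hbz : b ≤ z ^ (-(1 / 3) : ℝ) := by rw [hbdef]; exact min_le_right _ _
  have hNb := hN' n M X z b u hz hn hX hb hbd hu hA hsq
  rw [Real.one_rpow, one_mul, mul_one] at hNb
  have hM : (0:ℝ) ≤ M := Nat.cast_nonneg _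
  have hn0 : (0:ℝ) ≤ n := Nat.cast_nonneg _
  have hW : 0 < z ^ (7 / 3 : ℝ) := Real.rpow_pos_of_pos z0 _
  have k1 : z ^ (5 / 2 : ℝ) * b ^ (1 / 2 : ℝ) ≤ z ^ (7 / 3 : ℝ) := by
    have a1 : b ^ (1 / 2 : ℝ) ≤ z ^ (-(1 / 6) : ℝ) := by
      refine (Real.rpow_le_rpow hb.le hbz (by norm_num)).trans (le_of_eq ?_)
      rw [← Real.rpow_mul z0.le]
      norm_num
    calc z ^ (5 / 2 : ℝ) * b ^ (1 / 2 : ℝ) ≤ z ^ (5 / 2 : ℝ) * z ^ (-(1 / 6) : ℝ) :=
          mul_le_mul_of_nonneg_left a1 (Real.rpow_pos_of_pos z0 _).le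
      _ = z ^ (7 / 3 : ℝ) := by
          rw [← Real.rpow_add z0]
          norm_num
  have k2 : z ^ 2 ≤ z ^ (7 / 3 : ℝ) := by
    have a1 : z ^ 2 = z ^ (2 : ℝ) := (Real.rpow_two z).symm
    rw [a1]
    exact Real.rpow_le_rpow_of_exponent_le hz (by norm_num)
  have k3 : 1 / b ≤ 1 / d + z ^ (1 / 3 : ℝ) := by
    have a1 : 0 < z ^ (1 / 3 : ℝ) := Real.rpow_pos_of_pos z0 _
    have a2 : 0 < 1 / d := by positivity
    rcases min_choice d (z ^ (-(1 / 3) : ℝ)) with h | h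
    · rw [hbdef, h]
      linarith
    · rw [hbdef, h, Real.rpow_neg z0.le, one_div, inv_inv]
      linarith
  have k4 : z ^ 2 * z ^ (1 / 3 : ℝ) = z ^ (7 / 3 : ℝ) := by
    rw [← Real.rpow_two z, ← Real.rpow_add z0]
    norm_num
  have hone := atz_one hI X hb hbd hX hu
  have k5 : z * (n * (1 / b) * PW.sq u) ≤ 2 * (1 / d + 1) * (z ^ (7 / 3 : ℝ) * M) := by
    have a0 : 0 ≤ 1 / b := by positivity
    have a1 : n * (1 / b) * PW.sq u ≤ n * (1 / b) * 2 :=
      mul_le_mul_of_nonneg_left hsq (by positivity)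
    have a2 : n * (1 / b) * 2 ≤ z * M * (1 / b) * 2 := by
      have := mul_le_mul_of_nonneg_right hn a0
      linarith
    have a3 : z * (n * (1 / b) * PW.sq u) ≤ z * (z * M * (1 / b) * 2) :=
      mul_le_mul_of_nonneg_left (a1.trans a2) z0.le
    have a4 : z * (z * M * (1 / b) * 2) = 2 * (z ^ 2 * M) * (1 / b) := by ring
    have a5 : 2 * (z ^ 2 * M) * (1 / b) ≤ 2 * (z ^ 2 * M) * (1 / d + z ^ (1 / 3 : ℝ)) :=
      mul_le_mul_of_nonneg_left k3 (by positivity)
    have a6 : 2 * (z ^ 2 * M) * (1 / d + z ^ (1 / 3 : ℝ)) =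
        2 * M * (1 / d * z ^ 2 + z ^ 2 * z ^ (1 / 3 : ℝ)) := by ring
    have a7 : 2 * M * (1 / d * z ^ 2 + z ^ 2 * z ^ (1 / 3 : ℝ)) ≤
        2 * M * (1 / d * z ^ (7 / 3 : ℝ) + z ^ (7 / 3 : ℝ)) := by
      apply mul_le_mul_of_nonneg_left _ (by positivity)
      rw [k4]
      have : 1 / d * z ^ 2 ≤ 1 / d * z ^ (7 / 3 : ℝ) :=
        mul_le_mul_of_nonneg_left k2 (by positivity)
      linarith
    have a8 : 2 * M * (1 / d * z ^ (7 / 3 : ℝ) + z ^ (7 / 3 : ℝ)) =
        2 * (1 / d + 1) * (z ^ (7 / 3 : ℝ) * M) := by ring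
    linarith
  have k6 : (C * z ^ (5 / 2 : ℝ) * b ^ (1 / 2 : ℝ) + C' * z ^ 2) * M ≤
      (C + C') * (z ^ (7 / 3 : ℝ) * M) := by
    have a1 : C * z ^ (5 / 2 : ℝ) * b ^ (1 / 2 : ℝ) + C' * z ^ 2 ≤
        (C + C') * z ^ (7 / 3 : ℝ) := by
      have b1 := mul_le_mul_of_nonneg_left k1 hC.le
      have b2 := mul_le_mul_of_nonneg_left k2 hC'.le
      nlinarith [b1, b2]
    have a2 := mul_le_mul_of_nonneg_right a1 hM
    linarith
  have k7 := mul_le_mul_of_nonneg_left hone z0.le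
  nlinarith [k5, k6, k7, hNb, hkin]

end Pool.Agent.Helper81.HN
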